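import Pool.Agent.GBS.Stmts

/-! Row EPS of squad GBS: symmetries of `eps`, `Pf`, `ctr`. -/

noncomputable section

open Matrix

namespace Pool.Agent.GBS.H44

/-- the matrix with rows `u, v, e_j, e_k, e_l` -/
def rows (u v : Fin 5 → ℝ) (j k l : Fin 5) : M5 :=
  Matrix.of ![u, v, Pi.single j 1, Pi.single k 1, Pi.single l 1]

theorem eps_rows (u : Fin 5 → ℝ) (i j k l : Fin 5) :
    eps u i j k l = (rows u (Pi.single i 1) j k l).det := rfl

theorem rows_upd0 (u v w : Fin 5 → ℝ) (j k l : Fin 5) :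
    rows w v j k l = (rows u v j k l).updateRow 0 w := by
  ext a b
  fin_cases a <;> simp [rows, Matrix.updateRow_apply]

theorem rows_upd1 (u v w : Fin 5 → ℝ) (j k l : Fin 5) :
    rows u w j k l = (rows u v j k l).updateRow 1 w := by
  ext a b
  fin_cases a <;> simp [rows, Matrix.updateRow_apply]

theorem eps_add (u v : Fin 5 → ℝ) (i j k l : Fin 5) :
    eps (u + v) i j k l = eps u i j k l + eps v i j k l := by
  rw [eps_rows, eps_rows, eps_rows, rows_upd0 0 _ (u + v), rows_upd0 0 _ u, rows_upd0 0 _ v,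
    Matrix.det_updateRow_add]

theorem eps_smul (c : ℝ) (u : Fin 5 → ℝ) (i j k l : Fin 5) :
    eps (c • u) i j k l = c * eps u i j k l := by
  rw [eps_rows, eps_rows, rows_upd0 0 _ (c • u), rows_upd0 0 _ u, Matrix.det_updateRow_smul]

theorem eps_12 (u : Fin 5 → ℝ) (i j k l : Fin 5) : eps u j i k l = - eps u i j k l := by
  have h : (Matrix.of ![u, Pi.single j 1, Pi.single i 1, Pi.single k 1, Pi.single l 1] : M5) =
      (Matrix.of ![u, Pi.single i 1, Pi.single j 1, Pi.single k 1, Pi.single l 1] : M5).submatrix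
        (Equiv.swap (1 : Fin 5) 2) id := by
    ext a b
    fin_cases a <;> rfl
  unfold eps
  rw [h, Matrix.det_permute, Equiv.Perm.sign_swap (by decide)]
  simp

theorem eps_23 (u : Fin 5 → ℝ) (i j k l : Fin 5) : eps u i k j l = - eps u i j k l := by
  have h : (Matrix.of ![u, Pi.single i 1, Pi.single k 1, Pi.single j 1, Pi.single l 1] : M5) =
      (Matrix.of ![u, Pi.single i 1, Pi.single j 1, Pi.single k 1, Pi.single l 1] : M5).submatrix
        (Equiv.swap (2 : Fin 5) 3) id := by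
    ext a b
    fin_cases a <;> rfl
  unfold eps
  rw [h, Matrix.det_permute, Equiv.Perm.sign_swap (by decide)]
  simp

theorem eps_34 (u : Fin 5 → ℝ) (i j k l : Fin 5) : eps u i j l k = - eps u i j k l := by
  have h : (Matrix.of ![u, Pi.single i 1, Pi.single j 1, Pi.single l 1, Pi.single k 1] : M5) =
      (Matrix.of ![u, Pi.single i 1, Pi.single j 1, Pi.single k 1, Pi.single l 1] : M5).submatrix
        (Equiv.swap (3 : Fin 5) 4) id := by
    ext a b
    fin_cases a <;> rfl
  unfold eps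
  rw [h, Matrix.det_permute, Equiv.Perm.sign_swap (by decide)]
  simp

theorem rows_same (u : Fin 5 → ℝ) (j k l : Fin 5) : (rows u u j k l).det = 0 :=
  Matrix.det_zero_of_row_eq (i := 0) (j := 1) (by decide) rfl

/-- the determinant as a linear form in the second row -/
def lin1 (u : Fin 5 → ℝ) (j k l : Fin 5) : (Fin 5 → ℝ) →ₗ[ℝ] ℝ where
  toFun v := (rows u v j k l).det
  map_add' v w := by
    rw [rows_upd1 u 0 (v + w), rows_upd1 u 0 v, rows_upd1 u 0 w, Matrix.det_updateRow_add]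
  map_smul' c v := by
    rw [rows_upd1 u 0 (c • v), rows_upd1 u 0 v, Matrix.det_updateRow_smul]
    rfl

theorem lin1_apply (u v : Fin 5 → ℝ) (j k l : Fin 5) :
    lin1 u j k l v = (rows u v j k l).det := rfl

theorem lin1_single (u : Fin 5 → ℝ) (i j k l : Fin 5) :
    lin1 u j k l (Pi.single i (1 : ℝ)) = eps u i j k l := by
  rw [lin1_apply, eps_rows]

theorem lin_sum (L : (Fin 5 → ℝ) →ₗ[ℝ] ℝ) (u : Fin 5 → ℝ) :
    L u = ∑ i, u i * L (Pi.single i (1 : ℝ)) := by
  have h2 : u = ∑ i, u i • (Pi.single i (1 : ℝ) : Fin 5 → ℝ) := by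
    ext a
    simp [Finset.sum_apply, Pi.single_apply]
  calc L u = L (∑ i, u i • (Pi.single i (1 : ℝ) : Fin 5 → ℝ)) := congrArg L h2
    _ = ∑ i, u i * L (Pi.single i (1 : ℝ)) := by
      rw [map_sum]
      simp only [map_smul, smul_eq_mul]

theorem sum_eps (u : Fin 5 → ℝ) (j k l : Fin 5) : ∑ i, u i * eps u i j k l = 0 := by
  have h1 := lin_sum (lin1 u j k l) u
  simp only [lin1_single] at h1
  rw [← h1]
  exact rows_same u j k l

/-! ### renaming of summation indices -/

theorem s12 (H : Fin 5 → Fin 5 → Fin 5 → Fin 5 → ℝ) :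
    ∑ i, ∑ j, ∑ k, ∑ l, H j i k l = ∑ i, ∑ j, ∑ k, ∑ l, H i j k l := Finset.sum_comm

theorem s23 (H : Fin 5 → Fin 5 → Fin 5 → Fin 5 → ℝ) :
    ∑ i, ∑ j, ∑ k, ∑ l, H i k j l = ∑ i, ∑ j, ∑ k, ∑ l, H i j k l :=
  Finset.sum_congr rfl fun _ _ => Finset.sum_comm

theorem s34 (H : Fin 5 → Fin 5 → Fin 5 → Fin 5 → ℝ) :
    ∑ i, ∑ j, ∑ k, ∑ l, H i j l k = ∑ i, ∑ j, ∑ k, ∑ l, H i j k l :=
  Finset.sum_congr rfl fun _ _ => Finset.sum_congr rfl fun _ _ => Finset.sum_comm

/-- exchange of the two pairs -/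
theorem spair (H : Fin 5 → Fin 5 → Fin 5 → Fin 5 → ℝ) :
    ∑ i, ∑ j, ∑ k, ∑ l, H k l i j = ∑ i, ∑ j, ∑ k, ∑ l, H i j k l := by
  rw [← s23 (fun a b c d => H c d a b), ← s12 (fun a b c d => H b d a c),
    ← s34 (fun a b c d => H a d b c), ← s23 (fun a b c d => H a c b d)]

/-- the cyclic renaming of the indices `1, 3, 4` -/
theorem scyc (H : Fin 5 → Fin 5 → Fin 5 → Fin 5 → ℝ) :
    ∑ i, ∑ j, ∑ k, ∑ l, H k j l i = ∑ i, ∑ j, ∑ k, ∑ l, H i j k l := by
  rw [← s23 (fun a b c d => H c b d a), ← s12 (fun a b c d => H b c d a),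
    ← s23 (fun a b c d => H a c d b), ← s34 (fun a b c d => H a b d c)]

theorem eps_pair (u : Fin 5 → ℝ) (i j k l : Fin 5) : eps u k l i j = eps u i j k l := by
  rw [eps_23 u k i l j, eps_12 u i k l j, eps_34 u i k j l, eps_23 u i j k l]
  ring

theorem eps_cyc (u : Fin 5 → ℝ) (i j k l : Fin 5) : eps u k j l i = eps u i j k l := by
  rw [eps_34 u k j i l, eps_23 u k i j l, eps_12 u i k j l, eps_23 u i j k l]
  ring

theorem ctr_pair (u : Fin 5 → ℝ) (T : Fin 5 → Fin 5 → Fin 5 → Fin 5 → ℝ) :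
    ctr u (fun i j k l => T k l i j) = ctr u T := by
  unfold ctr
  rw [← spair (fun i j k l => eps u i j k l * T i j k l)]
  simp only [eps_pair]

theorem ctr_12 (u : Fin 5 → ℝ) (T : Fin 5 → Fin 5 → Fin 5 → Fin 5 → ℝ) :
    ctr u (fun i j k l => T j i k l) = - ctr u T := by
  unfold ctr
  rw [← s12 (fun i j k l => eps u i j k l * T i j k l)]
  simp only [← Finset.sum_neg_distrib]
  refine Finset.sum_congr rfl fun i _ => Finset.sum_congr rfl fun j _ =>
    Finset.sum_congr rfl fun k _ => Finset.sum_congr rfl fun l _ => ?_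
  rw [eps_12 u i j k l]
  ring

theorem ctr_cyc (u : Fin 5 → ℝ) (T : Fin 5 → Fin 5 → Fin 5 → Fin 5 → ℝ) :
    ctr u (fun i j k l => T k j l i) = ctr u T := by
  unfold ctr
  rw [← scyc (fun i j k l => eps u i j k l * T i j k l)]
  simp only [eps_cyc]

theorem ctr_add (u : Fin 5 → ℝ) (T T' : Fin 5 → Fin 5 → Fin 5 → Fin 5 → ℝ) :
    ctr u (fun i j k l => T i j k l + T' i j k l) = ctr u T + ctr u T' := by
  unfold ctr
  simp only [mul_add, Finset.sum_add_distrib]

theorem ctr_smul (c : ℝ) (u : Fin 5 → ℝ) (T : Fin 5 → Fin 5 → Fin 5 → Fin 5 → ℝ) :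
    ctr u (fun i j k l => c * T i j k l) = c * ctr u T := by
  unfold ctr
  simp only [Finset.mul_sum]
  refine Finset.sum_congr rfl fun i _ => Finset.sum_congr rfl fun j _ =>
    Finset.sum_congr rfl fun k _ => Finset.sum_congr rfl fun l _ => ?_
  ring

theorem ctr_bianchi (u : Fin 5 → ℝ) (T : Fin 5 → Fin 5 → Fin 5 → Fin 5 → ℝ)
    (h : ∀ i j k l, T i j k l + T k j l i + T l j i k = 0) : ctr u T = 0 := by
  have h1 : ctr u (fun i j k l => T k j l i) = ctr u T := ctr_cyc u T
  have h2 : ctr u (fun i j k l => T l j i k) = ctr u T := by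
    rw [← h1, ← ctr_cyc u (fun i j k l => T k j l i)]
  have h3 : ctr u (fun i j k l => T i j k l + T k j l i + T l j i k) = 0 := by
    simp only [h]
    simp [ctr]
  rw [ctr_add u (fun i j k l => T i j k l + T k j l i) (fun i j k l => T l j i k),
    ctr_add u T (fun i j k l => T k j l i), h1, h2] at h3
  linarith

theorem eps_statement : EpsStatement := by
  refine ⟨eps_add, eps_smul, fun u i j k l => eps_12 u i j k l, fun u i j k l => eps_23 u i j k l,
    fun u i j k l => eps_34 u i j k l, fun i j k l => rows_same _ j k l,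
    fun u j k l => sum_eps u j k l, ?_, ?_, ?_, ?_, ?_, ?_, ctr_add, ctr_smul, ctr_12,
    ctr_bianchi, ctr_pair⟩
  · intro u v S T
    simp only [Pf, ctr, eps_add, add_mul, Finset.sum_add_distrib]
  · intro c u S T
    simp only [Pf, ctr, eps_smul, Finset.mul_sum, mul_assoc]
  · intro u S S' T
    have h := ctr_add u (fun a b c d => S a b * T c d) (fun a b c d => S' a b * T c d)
    simp only [Pf, Matrix.add_apply, add_mul]
    exact h
  · intro c u S T
    have h := ctr_smul c u (fun a b c d => S a b * T c d)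
    simp only [Pf, Matrix.smul_apply, smul_eq_mul, mul_assoc]
    exact h
  · intro u S T
    have h := ctr_pair u (fun a b c d => S a b * T c d)
    unfold Pf
    rw [← h]
    simp only [mul_comm]
  · intro u S T
    exact ctr_12 u (fun a b c d => S a b * T c d)

theorem eps : EpsStatement := eps_statement

end Pool.Agent.GBS.H44
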