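import Pool.Agent.GBS.StmtsB
import Pool.Agent.Helper44_GBS.EPS

/-! Row EVA of squad GBS: the contraction of two skew matrices with `eps e_0`. -/

noncomputable section

open Matrix

namespace Pool.Agent.GBS.H44.EVA

abbrev e0 : Fin 5 → ℝ := Pi.single 0 1

theorem z1 (j k l : Fin 5) : GBS.eps (Pi.single 0 1) 0 j k l = 0 := rows_same _ j k l

theorem z2 (i k l : Fin 5) : GBS.eps (Pi.single 0 1) i 0 k l = 0 := by
  rw [eps_12, z1, neg_zero]

theorem z3 (i j l : Fin 5) : GBS.eps (Pi.single 0 1) i j 0 l = 0 := by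
  rw [eps_23, z2, neg_zero]

theorem z4 (i j k : Fin 5) : GBS.eps (Pi.single 0 1) i j k 0 = 0 := by
  rw [eps_34, z3, neg_zero]

theorem q12 (u : Fin 5 → ℝ) (i k l : Fin 5) : GBS.eps u i i k l = 0 := by
  have h := eps_12 u i i k l
  linarith

theorem q23 (u : Fin 5 → ℝ) (i j l : Fin 5) : GBS.eps u i j j l = 0 := by
  have h := eps_23 u i j j l
  linarith

theorem q34 (u : Fin 5 → ℝ) (i j k : Fin 5) : GBS.eps u i j k k = 0 := by
  have h := eps_34 u i j k k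
  linarith

theorem q13 (u : Fin 5 → ℝ) (i j l : Fin 5) : GBS.eps u i j i l = 0 := by
  rw [eps_23 u i i j l, q12, neg_zero]

theorem q24 (u : Fin 5 → ℝ) (i j k : Fin 5) : GBS.eps u i j k j = 0 := by
  rw [eps_34 u i j j k, q23, neg_zero]

theorem q14 (u : Fin 5 → ℝ) (i j k : Fin 5) : GBS.eps u i j k i = 0 := by
  rw [eps_34 u i j i k, q13, neg_zero]

theorem v1234 : GBS.eps (Pi.single 0 1) 1 2 3 4 = 1 := by
  have h : (Matrix.of ![(Pi.single 0 1 : Fin 5 → ℝ), Pi.single 1 1, Pi.single 2 1, Pi.single 3 1,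
      Pi.single 4 1] : M5) = 1 := by
    ext a b
    fin_cases a <;> fin_cases b <;> simp
  unfold GBS.eps
  rw [h, Matrix.det_one]

theorem v2134 : GBS.eps (Pi.single 0 1) 2 1 3 4 = -1 := by
  rw [eps_12 _ 1 2 3 4, v1234]

theorem v1324 : GBS.eps (Pi.single 0 1) 1 3 2 4 = -1 := by
  rw [eps_23 _ 1 2 3 4, v1234]

theorem v1243 : GBS.eps (Pi.single 0 1) 1 2 4 3 = -1 := by
  rw [eps_34 _ 1 2 3 4, v1234]

theorem v2314 : GBS.eps (Pi.single 0 1) 2 3 1 4 = 1 := by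
  rw [eps_23 _ 2 1 3 4, v2134]; norm_num

theorem v2143 : GBS.eps (Pi.single 0 1) 2 1 4 3 = 1 := by
  rw [eps_34 _ 2 1 3 4, v2134]; norm_num

theorem v3124 : GBS.eps (Pi.single 0 1) 3 1 2 4 = 1 := by
  rw [eps_12 _ 1 3 2 4, v1324]; norm_num

theorem v1342 : GBS.eps (Pi.single 0 1) 1 3 4 2 = 1 := by
  rw [eps_34 _ 1 3 2 4, v1324]; norm_num

theorem v1423 : GBS.eps (Pi.single 0 1) 1 4 2 3 = 1 := by
  rw [eps_23 _ 1 2 4 3, v1243]; norm_num

theorem v3214 : GBS.eps (Pi.single 0 1) 3 2 1 4 = -1 := by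
  rw [eps_12 _ 2 3 1 4, v2314]

theorem v2341 : GBS.eps (Pi.single 0 1) 2 3 4 1 = -1 := by
  rw [eps_34 _ 2 3 1 4, v2314]

theorem v2413 : GBS.eps (Pi.single 0 1) 2 4 1 3 = -1 := by
  rw [eps_23 _ 2 1 4 3, v2143]

theorem v3142 : GBS.eps (Pi.single 0 1) 3 1 4 2 = -1 := by
  rw [eps_34 _ 3 1 2 4, v3124]

theorem v1432 : GBS.eps (Pi.single 0 1) 1 4 3 2 = -1 := by
  rw [eps_23 _ 1 3 4 2, v1342]

theorem v4123 : GBS.eps (Pi.single 0 1) 4 1 2 3 = -1 := by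
  rw [eps_12 _ 1 4 2 3, v1423]

theorem v3241 : GBS.eps (Pi.single 0 1) 3 2 4 1 = 1 := by
  rw [eps_34 _ 3 2 1 4, v3214]; norm_num

theorem v2431 : GBS.eps (Pi.single 0 1) 2 4 3 1 = 1 := by
  rw [eps_23 _ 2 3 4 1, v2341]; norm_num

theorem v4213 : GBS.eps (Pi.single 0 1) 4 2 1 3 = 1 := by
  rw [eps_12 _ 2 4 1 3, v2413]; norm_num

theorem v3412 : GBS.eps (Pi.single 0 1) 3 4 1 2 = 1 := by
  rw [eps_23 _ 3 1 4 2, v3142]; norm_num

theorem v4132 : GBS.eps (Pi.single 0 1) 4 1 3 2 = 1 := by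
  rw [eps_12 _ 1 4 3 2, v1432]; norm_num

theorem v3421 : GBS.eps (Pi.single 0 1) 3 4 2 1 = -1 := by
  rw [eps_23 _ 3 2 4 1, v3241]

theorem v4231 : GBS.eps (Pi.single 0 1) 4 2 3 1 = -1 := by
  rw [eps_12 _ 2 4 3 1, v2431]

theorem v4312 : GBS.eps (Pi.single 0 1) 4 3 1 2 = -1 := by
  rw [eps_12 _ 3 4 1 2, v3412]

theorem v4321 : GBS.eps (Pi.single 0 1) 4 3 2 1 = 1 := by
  rw [eps_12 _ 3 4 2 1, v3421]; norm_num

theorem sum4 (f : Fin 5 → ℝ) (h : f 0 = 0) : ∑ i, f i = f 1 + f 2 + f 3 + f 4 := by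
  rw [Fin.sum_univ_five, h, zero_add]

theorem ctr_e0 (T : Fin 5 → Fin 5 → Fin 5 → Fin 5 → ℝ) :
    ctr (Pi.single 0 1) T =
      T 1 2 3 4
      - T 1 2 4 3
      - T 1 3 2 4
      + T 1 3 4 2
      + T 1 4 2 3
      - T 1 4 3 2
      - T 2 1 3 4
      + T 2 1 4 3
      + T 2 3 1 4
      - T 2 3 4 1
      - T 2 4 1 3
      + T 2 4 3 1
      + T 3 1 2 4
      - T 3 1 4 2
      - T 3 2 1 4
      + T 3 2 4 1
      + T 3 4 1 2
      - T 3 4 2 1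
      - T 4 1 2 3
      + T 4 1 3 2
      + T 4 2 1 3
      - T 4 2 3 1
      - T 4 3 1 2
      + T 4 3 2 1 := by
  have h3 : ∀ i j k : Fin 5, ∑ l, GBS.eps (Pi.single 0 1) i j k l * T i j k l =
      GBS.eps (Pi.single 0 1) i j k 1 * T i j k 1 + GBS.eps (Pi.single 0 1) i j k 2 * T i j k 2 +
      GBS.eps (Pi.single 0 1) i j k 3 * T i j k 3 + GBS.eps (Pi.single 0 1) i j k 4 * T i j k 4 :=
    fun i j k => sum4 _ (by rw [z4, zero_mul])
  unfold ctr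
  simp only [h3]
  rw [sum4 _ (by simp [z1])]
  simp only [Fin.sum_univ_five]
  simp only [z2, z3, q12, q23, q34, q13, q24, q14, v1234, v1243, v1324, v1342, v1423, v1432, v2134, v2143, v2314, v2341, v2413, v2431, v3124, v3142, v3214, v3241, v3412, v3421, v4123, v4132, v4213, v4231, v4312, v4321, zero_mul, one_mul, neg_mul,
    add_zero, zero_add]
  ring

theorem eva : EvaStmt := by
  intro A B hA hB
  have r : (∑ p, (A (pr p).1.succ (pr p).2.succ * B (ps p).1.succ (ps p).2.succ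
      + A (ps p).1.succ (ps p).2.succ * B (pr p).1.succ (pr p).2.succ)) =
      (A 1 2 * B 3 4 + A 3 4 * B 1 2) + (A 1 3 * B 4 2 + A 4 2 * B 1 3) +
      (A 1 4 * B 2 3 + A 2 3 * B 1 4) := by
    rw [Fin.sum_univ_three]
    rfl
  rw [r, ctr_e0]
  simp only [hA 2 1, hA 3 1, hA 4 1, hA 3 2, hA 4 2, hA 4 3, hB 2 1, hB 3 1, hB 4 1, hB 3 2,
    hB 4 2, hB 4 3]
  ring

end Pool.Agent.GBS.H44.EVA

namespace Pool.Agent.GBS.H44

theorem eva : EvaStmt := EVA.eva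

end Pool.Agent.GBS.H44
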