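import Pool.Agent.GBS.StmtsC
import Pool.Agent.Helper32_GBS.RDE

/-! Row RDZ of squad GBS: the round metric is Einstein. -/

set_option autoImplicit false

noncomputable section

open scoped ContDiff Topology RealInnerProductSpace
open Set MeasureTheory Matrix

namespace Pool.Agent.GBS.H44

open Pool.Agent.RF Pool.Agent.MVS Pool.Agent.GBS Pool.Agent.SecondKind Pool.Agent.MinVolSphere

theorem rdz (hbfo : BfoStmt) (hrdk : RdkStmt) : RdzStmt := by
  intro U ψ hψ y hy e he
  obtain ⟨h1, -, h3⟩ := hbfo _ _ H32.cyl2_round U ψ hψ y hy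
  have hOm : vc (ψ y) ∈ Om (Fin 5) := by
    show vc (ψ y) ≠ 0
    rw [← norm_pos_iff, H32.norm_vc (hψ.sphere y hy)]
    exact one_pos
  have hK : ∀ a b c d, riemV (comp Pool.Agent.MVS.H38.rg ψ) y (e a) (e b) (e c) (e d) =
      (if b = c then 1 else 0) * (if a = d then 1 else 0) -
        (if a = c then 1 else 0) * (if b = d then 1 else 0) := by
    intro a b c d
    rw [h1]
    exact hrdk _ hOm _ (h3 e he) a b c d
  unfold ric0F
  simp only [hK]
  simp [Fin.sum_univ_four]
  norm_num

end Pool.Agent.GBS.H44
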