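import Pool.Agent.Helper44_GBS.EPS

/-! Row TRT of squad GBS: the time derivative of the Euler density. -/

noncomputable section

open scoped ContDiff Topology
open Set Matrix

namespace Pool.Agent.GBS.H44.TRT

open Pool.Agent.RF Pool.Agent.MVS

theorem eps_zero (i j k l : Fin 5) : GBS.eps 0 i j k l = 0 := by
  have h := eps_smul 0 0 i j k l
  simpa using h

theorem Pf_smul0 (c : ℝ) (u : Fin 5 → ℝ) (S T : M5) : Pf (c • u) S T = c * Pf u S T :=
  eps_statement.2.2.2.2.2.2.2.2.1 c u S T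

theorem Pf_zero (S T : M5) : Pf 0 S T = 0 := by
  have h := Pf_smul0 0 0 S T
  simpa using h

theorem Pf_add (u : Fin 5 → ℝ) (S S' T : M5) : Pf u (S + S') T = Pf u S T + Pf u S' T :=
  eps_statement.2.2.2.2.2.2.2.2.2.1 u S S' T

theorem Pf_smul (c : ℝ) (u : Fin 5 → ℝ) (S T : M5) : Pf u (c • S) T = c * Pf u S T :=
  eps_statement.2.2.2.2.2.2.2.2.2.2.1 c u S T

theorem Pf_comm (u : Fin 5 → ℝ) (S T : M5) : Pf u T S = Pf u S T :=
  eps_statement.2.2.2.2.2.2.2.2.2.2.2.1 u S T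

theorem Pf_tr (u : Fin 5 → ℝ) (S T : M5) : Pf u Sᵀ T = - Pf u S T :=
  eps_statement.2.2.2.2.2.2.2.2.2.2.2.2.1 u S T

/-- multiplication of a skew matrix from both sides -/
theorem Pf_skew (u : Fin 5 → ℝ) (M S T : M5) (hS : Sᵀ = - S) :
    Pf u (M * S + S * Mᵀ) T = 2 * Pf u (S * Mᵀ) T := by
  have h1 : M * S = (-1 : ℝ) • (S * Mᵀ)ᵀ := by
    rw [transpose_mul, transpose_transpose, hS]
    simp
  rw [Pf_add, h1, Pf_smul, Pf_tr]
  ring

theorem Pf_skew' (u : Fin 5 → ℝ) (M S T : M5) (hT : Tᵀ = - T) :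
    Pf u S (M * T + T * Mᵀ) = 2 * Pf u S (T * Mᵀ) := by
  rw [Pf_comm, Pf_skew u M T S hT, Pf_comm]

/-- equal functions have equal derivatives -/
theorem dr_congr {f f' : Z → ℝ} (h : ∀ z ∈ UZ, f z = f' z) (ho : IsOpen UZ) {z : Z} (hz : z ∈ UZ)
    (v : Z) : dr v f z = dr v f' z := by
  unfold dr
  have : f =ᶠ[𝓝 z] f' := Filter.eventually_of_mem (ho.mem_nhds hz) h
  rw [this.fderiv_eq]

theorem dM_congr {F F' : Z → M5} (h : ∀ z ∈ UZ, F z = F' z) (ho : IsOpen UZ) {z : Z}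
    (hz : z ∈ UZ) (v : Z) : dM v F z = dM v F' z := by
  ext a b
  exact dr_congr (fun y hy => by rw [h y hy]) ho hz v

theorem dM_const (v : Z) (C : M5) (z : Z) : dM v (fun _ => C) z = 0 := by
  ext a b
  simp [dM, dr]

theorem dM_tr (v : Z) (F : Z → M5) (z : Z) : dM v (fun y => (F y)ᵀ) z = (dM v F z)ᵀ := rfl

theorem cf_zero : cf (0 : E5) = 0 := rfl

theorem trt (epi : EpiStatement) (_eps : EpsStatement) (cal : CalStatement) : TrtStatement := by
  intro g h Γ w hD z hz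
  obtain ⟨c1, c2, c3, c4, c5, c6, c7, c8, c9, c10, c11, c12, c13⟩ := cal
  have hgh := hD.inv z hz
  have hhg : h z * g z = 1 := mul_eq_one_comm.mp hgh
  have hgt := hD.sym z hz
  have hht : (h z)ᵀ = h z := by
    have e1 : (h z)ᵀ * g z = 1 := by
      have := congrArg transpose hgh
      rwa [transpose_mul, hgt, transpose_one] at this
    calc (h z)ᵀ = (h z)ᵀ * (g z * h z) := by rw [hgh, Matrix.mul_one]
      _ = h z := by rw [← Matrix.mul_assoc, e1, Matrix.one_mul]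
  -- derivative of g
  set g' : M5 := dM vt g z with hg'
  have hg't : g'ᵀ = g' := by
    rw [hg', ← dM_tr]
    exact dM_congr (fun y hy => hD.sym y hy) c1 hz vt
  -- derivative of h
  have hh' : dM vt h z = -(h z * g' * h z) := by
    have e1 : dM vt (fun y => g y * h y) z = 0 := by
      rw [dM_congr (F' := fun _ => 1) (fun y hy => hD.inv y hy) c1 hz vt, dM_const]
    rw [(c7 g h hD.sg hD.sh z hz vt).2.2] at e1
    have e2 : g z * dM vt h z = -(g' * h z) := by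
      rw [eq_neg_iff_add_eq_zero, add_comm]
      exact e1
    calc dM vt h z = (h z * g z) * dM vt h z := by rw [hhg, Matrix.one_mul]
      _ = h z * (g z * dM vt h z) := Matrix.mul_assoc _ _ _
      _ = -(h z * g' * h z) := by rw [e2, Matrix.mul_neg, Matrix.mul_assoc]
  -- smoothness
  have sR : ∀ i j, SmM (RZ Γ i j) := fun i j =>
    (c4 _ _ (c4 _ _ (c3 _ (hD.sΓ j) (vx i)) (c3 _ (hD.sΓ i) (vx j))).2.1
      (c4 _ _ (c4 _ _ (hD.sΓ i) (hD.sΓ j)).2.2.1 (c4 _ _ (hD.sΓ j) (hD.sΓ i)).2.2.1).2.1).1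
  have sS : ∀ i j, SmM (SZ Γ h i j) := fun i j => (c4 _ _ (sR i j) hD.sh).2.2.1
  -- derivative of S
  have dS : ∀ i j, dM vt (SZ Γ h i j) z =
      dM vt (RZ Γ i j) z * h z + (-1 : ℝ) • (SZ Γ h i j z * (g' * h z)) := by
    intro i j
    have e1 := (c7 _ _ (sR i j) hD.sh z hz vt).2.2
    have e2 : dM vt (SZ Γ h i j) z = dM vt (RZ Γ i j) z * h z + RZ Γ i j z * dM vt h z := e1
    rw [e2, hh', Matrix.mul_neg, neg_one_smul]
    unfold SZ
    simp only [Matrix.mul_assoc]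
  -- the matrix M
  set M : M5 := (1 / 2 : ℝ) • (h z * g') with hM
  have hMt : (2 : ℝ) • Mᵀ = g' * h z := by
    rw [hM, transpose_smul, transpose_mul, hht, hg't, smul_smul]
    norm_num
  have hMX : M *ᵥ cf z.2 = 0 := by
    have e := hD.tim z hz
    rw [hM, smul_mulVec, ← mulVec_mulVec, hg', e, mulVec_zero, smul_zero]
  have htr : M.trace = 1 / 2 * (h z * g').trace := by
    rw [hM, trace_smul, smul_eq_mul]
  have key : ∀ i j k l, Pf (cf z.2) (SZ Γ h i j z * (g' * h z)) (SZ Γ h k l z) +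
      Pf (cf z.2) (SZ Γ h i j z) (SZ Γ h k l z * (g' * h z)) =
      1 / 2 * (h z * g').trace * Pf (cf z.2) (SZ Γ h i j z) (SZ Γ h k l z) := by
    intro i j k l
    have e := (epi M (cf z.2)).2 (SZ Γ h i j z) (SZ Γ h k l z)
    rw [hMX, Pf_zero, Pf_skew _ _ _ _ (hD.skew z hz i j), Pf_skew' _ _ _ _ (hD.skew z hz k l),
      htr] at e
    have e1 : SZ Γ h i j z * (g' * h z) = (2 : ℝ) • (SZ Γ h i j z * Mᵀ) := by
      rw [← hMt, Matrix.mul_smul]
    have e2 : SZ Γ h k l z * (g' * h z) = (2 : ℝ) • (SZ Γ h k l z * Mᵀ) := by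
      rw [← hMt, Matrix.mul_smul]
    have a1 : Pf (cf z.2) (SZ Γ h i j z * (g' * h z)) (SZ Γ h k l z) =
        2 * Pf (cf z.2) (SZ Γ h i j z * Mᵀ) (SZ Γ h k l z) := by rw [e1, Pf_smul]
    have a2 : Pf (cf z.2) (SZ Γ h i j z) (SZ Γ h k l z * (g' * h z)) =
        2 * Pf (cf z.2) (SZ Γ h i j z) (SZ Γ h k l z * Mᵀ) := by
      rw [e2, Pf_comm, Pf_smul, Pf_comm]
    rw [a1, a2]
    linarith
  -- derivative of Pf
  have vt2 : cf (vt : Z).2 = 0 := rfl
  have dPf : ∀ i j k l, dr vt (fun y : Z => Pf (cf y.2) (SZ Γ h i j y) (SZ Γ h k l y)) z =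
      Pf (cf z.2) (dM vt (RZ Γ i j) z * h z) (SZ Γ h k l z) +
      Pf (cf z.2) (dM vt (RZ Γ k l) z * h z) (SZ Γ h i j z) -
      1 / 2 * (h z * g').trace * Pf (cf z.2) (SZ Γ h i j z) (SZ Γ h k l z) := by
    intro i j k l
    have b1 : Pf (cf z.2) (dM vt (SZ Γ h i j) z) (SZ Γ h k l z) =
        Pf (cf z.2) (dM vt (RZ Γ i j) z * h z) (SZ Γ h k l z) -
        Pf (cf z.2) (SZ Γ h i j z * (g' * h z)) (SZ Γ h k l z) := by
      rw [dS, Pf_add, Pf_smul]
      ring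
    have b2 : Pf (cf z.2) (SZ Γ h i j z) (dM vt (SZ Γ h k l) z) =
        Pf (cf z.2) (dM vt (RZ Γ k l) z * h z) (SZ Γ h i j z) -
        Pf (cf z.2) (SZ Γ h i j z) (SZ Γ h k l z * (g' * h z)) := by
      rw [dS, Pf_comm, Pf_add, Pf_smul, Pf_comm _ (SZ Γ h i j z) (SZ Γ h k l z * (g' * h z))]
      ring
    rw [(c12 _ _ (sS i j) (sS k l)).2 z hz vt, vt2, Pf_zero, b1, b2]
    have e := key i j k l
    linarith
  -- the contraction
  have sP : ∀ i j k l, ContDiffOn ℝ ∞ (fun y : Z => GBS.eps (cf y.2) i j k l *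
      Pf (cf y.2) (SZ Γ h i j y) (SZ Γ h k l y)) UZ := fun i j k l =>
    (c10 i j k l).mul (c12 _ _ (sS i j) (sS k l)).1
  have s3 : ∀ i j k, ContDiffOn ℝ ∞ (fun y : Z => ∑ l, GBS.eps (cf y.2) i j k l *
      Pf (cf y.2) (SZ Γ h i j y) (SZ Γ h k l y)) UZ := fun i j k =>
    ContDiffOn.sum fun l _ => sP i j k l
  have s2 : ∀ i j, ContDiffOn ℝ ∞ (fun y : Z => ∑ k, ∑ l, GBS.eps (cf y.2) i j k l *
      Pf (cf y.2) (SZ Γ h i j y) (SZ Γ h k l y)) UZ := fun i j =>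
    ContDiffOn.sum fun k _ => s3 i j k
  have s1 : ∀ i, ContDiffOn ℝ ∞ (fun y : Z => ∑ j, ∑ k, ∑ l, GBS.eps (cf y.2) i j k l *
      Pf (cf y.2) (SZ Γ h i j y) (SZ Γ h k l y)) UZ := fun i =>
    ContDiffOn.sum fun j _ => s2 i j
  have s0 : ContDiffOn ℝ ∞ (fun y : Z => ctr (cf y.2) fun i j k l =>
      Pf (cf y.2) (SZ Γ h i j y) (SZ Γ h k l y)) UZ :=
    ContDiffOn.sum fun i _ => s1 i
  have dC : dr vt (fun y : Z => ctr (cf y.2) fun i j k l =>
      Pf (cf y.2) (SZ Γ h i j y) (SZ Γ h k l y)) z =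
      ctr (cf z.2) (fun i j k l => dr vt (fun y : Z =>
        Pf (cf y.2) (SZ Γ h i j y) (SZ Γ h k l y)) z) := by
    unfold ctr
    rw [c9 _ s1 z hz vt]
    refine Finset.sum_congr rfl fun i _ => ?_
    rw [c9 _ (s2 i) z hz vt]
    refine Finset.sum_congr rfl fun j _ => ?_
    rw [c9 _ (s3 i j) z hz vt]
    refine Finset.sum_congr rfl fun k _ => ?_
    rw [c9 _ (sP i j k) z hz vt]
    refine Finset.sum_congr rfl fun l _ => ?_
    rw [c8 _ _ (c10 i j k l) (c12 _ _ (sS i j) (sS k l)).1 z hz vt, c11 i j k l z hz vt, vt2,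
      eps_zero, zero_mul, zero_add]
  have dC2 : dr vt (fun y : Z => ctr (cf y.2) fun i j k l =>
      Pf (cf y.2) (SZ Γ h i j y) (SZ Γ h k l y)) z =
      2 * ctr (cf z.2) (fun i j k l =>
        Pf (cf z.2) (dM vt (RZ Γ i j) z * h z) (SZ Γ h k l z)) -
      1 / 2 * (h z * g').trace * ctr (cf z.2) (fun i j k l =>
        Pf (cf z.2) (SZ Γ h i j z) (SZ Γ h k l z)) := by
    rw [dC]
    simp only [dPf]
    have e1 := ctr_pair (cf z.2) (fun i j k l =>
        Pf (cf z.2) (dM vt (RZ Γ i j) z * h z) (SZ Γ h k l z))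
    have e2 := ctr_smul (-(1 / 2 * (h z * g').trace)) (cf z.2) (fun i j k l =>
        Pf (cf z.2) (SZ Γ h i j z) (SZ Γ h k l z))
    have e3 := ctr_add (cf z.2) (fun i j k l =>
        Pf (cf z.2) (dM vt (RZ Γ i j) z * h z) (SZ Γ h k l z)) (fun i j k l =>
        Pf (cf z.2) (dM vt (RZ Γ k l) z * h z) (SZ Γ h i j z))
    have e4 := ctr_add (cf z.2) (fun i j k l =>
        Pf (cf z.2) (dM vt (RZ Γ i j) z * h z) (SZ Γ h k l z) +
        Pf (cf z.2) (dM vt (RZ Γ k l) z * h z) (SZ Γ h i j z))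
        (fun i j k l => -(1 / 2 * (h z * g').trace) *
        Pf (cf z.2) (SZ Γ h i j z) (SZ Γ h k l z))
    simp only [neg_mul, ← sub_eq_add_neg] at e2 e4
    rw [e4, e3, e1]
    linarith
  -- the product with w
  have dE : dr vt (EZ Γ h w) z = dr vt w z * (ctr (cf z.2) fun i j k l =>
      Pf (cf z.2) (SZ Γ h i j z) (SZ Γ h k l z)) + w z * dr vt (fun y : Z => ctr (cf y.2)
        fun i j k l => Pf (cf y.2) (SZ Γ h i j y) (SZ Γ h k l y)) z :=
    c8 _ _ hD.sw s0 z hz vt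
  rw [dE, dC2, hD.dw z hz vt, ← hg']
  unfold QZ
  ring

end Pool.Agent.GBS.H44.TRT

namespace Pool.Agent.GBS.H44

theorem trt (epi : EpiStatement) (eps : EpsStatement) (cal : CalStatement) : TrtStatement :=
  TRT.trt epi eps cal

end Pool.Agent.GBS.H44
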